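import Pool.Agent.H523.ZG.Stm

set_option autoImplicit false
set_option linter.unusedSectionVars false

/-! # (L) the class of zero -/

namespace Pool.Agent.H315.ZG

open Polynomial Finset
open Pool.Agent.H341R2.Sharp (Mon mem_Mon)
open Pool.Agent.H523.FF (Ir mem_Ir PL mem_PL card_PL two_le_card IrLE mem_IrLE)
open Pool.Agent.H523.CM
open Pool.Agent.H523.ZG

open scoped Classical

variable {F : Type} [Field F] [Fintype F]

theorem aP_not_dvd {P f : F[X]} (h : ¬ P ∣ f) : aP P f = gP P := by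
  unfold aP gP
  rw [if_neg h, sub_zero]

theorem one_add_le {r : ℕ} {Q : F[X]} (hQ : Q.Monic) (hQI : Irreducible Q) (hr : r < Q.natDegree)
    (g : F[X]) {P : F[X]} (hP : P ∈ IrLE F r) :
    1 + |aP P (Q * g)| ≤ (1 + gP P) * (if P ∣ g then 2 else 1) := by
  obtain ⟨hPm, hPI, hPr⟩ := mem_IrLE.mp hP
  have hg := gP_pos hPI
  by_cases h : P ∣ g
  · rw [if_pos h]
    have := abs_aP_le hPI (Q * g)
    linarith
  · rw [if_neg h, mul_one]
    have h1 : ¬ P ∣ Q * g := by
      intro hd
      rcases hPI.prime.dvd_or_dvd hd with h2 | h2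
      · have h3 := (hPI.associated_of_dvd hQI h2)
        have h4 := eq_of_monic_of_associated hPm hQ h3
        rw [h4] at hPr
        omega
      · exact h h2
    rw [aP_not_dvd h1, abs_of_pos hg]

theorem LS_le {r T : ℕ} {Q : F[X]} (hQ : Q.Monic) (hQI : Irreducible Q) (hr : r < Q.natDegree)
    (h1r : 1 ≤ r) {g : F[X]} (hg : g ≠ 0) :
    |LS (SF F r \ SF F T) (Q * g)| ≤ Real.exp 3 * r * tau g := by
  unfold LS
  refine (abs_sum_le_sum_abs _ _).trans ?_
  have hsub : SF F r \ SF F T ⊆ (IrLE F r).powerset := by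
    intro s hs
    rw [mem_sdiff] at hs
    exact (mem_filter.mp hs.1).1
  refine (sum_le_sum_of_subset_of_nonneg hsub (fun _ _ _ => abs_nonneg _)).trans ?_
  simp_rw [abs_prod]
  rw [← prod_one_add]
  refine (prod_le_prod (fun _ _ => by positivity) (fun P hP => one_add_le hQ hQI hr g hP)).trans ?_
  rw [prod_mul_distrib]
  have h1 := mertens (F := F) (z := r) h1r
  have hpr : ∀ P ∈ (IrLE F r).filter (fun P => P ∣ g), P.Monic ∧ Irreducible P := by
    intro P hP
    have := mem_IrLE.mp (mem_filter.mp hP).1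
    exact ⟨this.1, this.2.1⟩
  have h2 : (∏ P ∈ IrLE F r, (if P ∣ g then (2:ℝ) else 1)) =
      2 ^ ((IrLE F r).filter (fun P => P ∣ g)).card := by
    rw [← prod_filter, prod_const]
  have h3 : 2 ^ ((IrLE F r).filter (fun P => P ∣ g)).card ≤ tau g := by
    refine (pow_card_le_tau hpr).trans (tau_dvd_le hg ?_)
    rw [prod_dvd_iff hpr]
    intro P hP
    exact (mem_filter.mp hP).2
  rw [h2]
  have h4 : (2:ℝ) ^ ((IrLE F r).filter (fun P => P ∣ g)).card ≤ tau g := by exact_mod_cast h3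
  exact mul_le_mul h1 h4 (by positivity) (by positivity)

theorem main : S_L := by
  intro F _ _ n r T Q hQ hQI hdn hrd hr
  rw [sum_mult hQ hdn.le]
  refine (abs_sum_le_sum_abs _ _).trans ?_
  have h1 : ∀ g ∈ Mon F (n - Q.natDegree), |LS (SF F r \ SF F T) (Q * g)| ≤
      Real.exp 3 * r * tau g :=
    fun g hg => LS_le hQ hQI hrd hr (mem_Mon.mp hg).1.ne_zero
  refine (sum_le_sum h1).trans ?_
  rw [← mul_sum]
  have h2 := tau_moment (F := F) 1 (n - Q.natDegree)
  simp only [pow_one, Nat.add_one_sub_one] at h2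
  have h3 : 0 ≤ Real.exp 3 * (r : ℝ) := by positivity
  have h4 := mul_le_mul_of_nonneg_left h2 h3
  refine h4.trans (le_of_eq ?_)
  ring

end Pool.Agent.H315.ZG
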